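import Pool.Agent.Helper99.EXC.GoalsE

open MeasureTheory ProbabilityTheory Filter
open scoped ENNReal

namespace Pool.Agent.Helper50.EXC

open Pool.Agent.Helper99.ERW Pool.Agent.Helper99.EXC

lemma measurable_cookie (z : Site 2) (e : Dir 2) (i : ℕ) :
    Measurable (fun ω : Env 2 => ω z e i) :=
  (measurable_pi_apply i).comp ((measurable_pi_apply e).comp (measurable_pi_apply z))

lemma measurableSet_cb : MeasurableSet {ω : Env 2 | IsCookieEnv ω ∧ IsBalanced ω} := by
  have h1 : {ω : Env 2 | IsCookieEnv ω ∧ IsBalanced ω} =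
      (⋂ z : Site 2, ⋂ i : ℕ, ((⋂ e : Dir 2, {ω : Env 2 | 0 ≤ ω z e i}) ∩
        {ω : Env 2 | ∑ e, ω z e i = 1})) ∩
      ⋂ z : Site 2, ⋂ l : Fin 2, ⋂ i : ℕ, {ω : Env 2 | ω z (l, true) i = ω z (l, false) i} := by
    ext ω
    simp only [IsCookieEnv, IsBalanced, Set.mem_ofPred_eq, Set.mem_inter_iff, Set.mem_iInter]
  rw [h1]
  refine MeasurableSet.inter ?_ ?_
  · refine MeasurableSet.iInter fun z => MeasurableSet.iInter fun i => MeasurableSet.inter ?_ ?_
    · exact MeasurableSet.iInter fun e => measurableSet_le measurable_const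
        (measurable_cookie z e i)
    · exact measurableSet_eq_fun (Finset.measurable_sum _ fun e _ => measurable_cookie z e i)
        measurable_const
  · exact MeasurableSet.iInter fun z => MeasurableSet.iInter fun l => MeasurableSet.iInter
      fun i => measurableSet_eq_fun (measurable_cookie z (l, true) i)
        (measurable_cookie z (l, false) i)

lemma shift_cb {ω : Env 2} (hω : IsCookieEnv ω ∧ IsBalanced ω) (y : Site 2) :
    IsCookieEnv (shift y ω) ∧ IsBalanced (shift y ω) :=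
  ⟨fun z i => hω.1 (z + y) i, fun z l i => hω.2 (z + y) l i⟩

/-- Finite total variation makes the stack elliptic from some visit on. -/
lemma elliptic_of_tv {a : ℝ} (ha0 : 0 < a) (ha1 : a < 1) {ω : Env 2} (hc : IsCookieEnv ω)
    (hb : IsBalanced ω) (z : Site 2)
    (hz : ∑' i, ENNReal.ofReal |2 * ω z (0, true) i - a| ≠ ∞) (e : Dir 2) :
    ∃ κ : ℝ, 0 < κ ∧ ∃ I : ℕ, ∀ i, I ≤ i → κ ≤ ω z e i := by
  have ht := ENNReal.tendsto_atTop_zero_of_tsum_ne_top hz
  have hm : 0 < min a (1 - a) / 2 := by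
    have : 0 < min a (1 - a) := lt_min ha0 (by linarith)
    linarith
  have hev := ht.eventually_lt_const (ENNReal.ofReal_pos.mpr hm)
  obtain ⟨I, hI⟩ := eventually_atTop.mp hev
  refine ⟨min a (1 - a) / 4, by linarith, I, fun i hi => ?_⟩
  have h1 := (ENNReal.ofReal_lt_ofReal_iff hm).mp (hI i hi)
  rw [abs_lt] at h1
  have h2 := min_le_left a (1 - a)
  have h3 := min_le_right a (1 - a)
  have h4 := (hc z i).2
  have h5 := hb z 0 i
  have h6 := hb z 1 i
  have h7 : ∑ e, ω z e i = ω z (0, true) i + ω z (0, false) i +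
      (ω z (1, true) i + ω z (1, false) i) := by
    rw [Fintype.sum_prod_type]
    simp [Fin.sum_univ_two]
  rw [h7] at h4
  obtain ⟨l, s⟩ := e
  fin_cases l <;> cases s <;> simp only [Fin.zero_eta, Fin.mk_one, Fin.isValue] <;> linarith

theorem ASM (hDET : DET_stmt) (hCOK : COK_stmt) (hGME : GME_stmt) (hTJZ : TJZ_stmt)
    (hPOS : POS_stmt) (hHGL : HGL_stmt) (hIOE : IOE_stmt) : ASM_stmt := by
  intro Ω _ P _ μ _ env X h hP hB hSE a W ha0 ha1 hW2 hW hex
  obtain ⟨φ, Φ, κ, C, b, k1, hS⟩ := hex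
  obtain ⟨δ, hδ, hD⟩ := hDET κ C b hS.kpos hS.cone
  obtain ⟨J, M, hM, hpos⟩ := hPOS P hSE a W ha0 ha1 hW2 hW φ Φ κ C b k1 hS δ hδ
  obtain ⟨c0, hc0, hc1, hD⟩ := hD M hM
  have hGm : MeasurableSet (GE a Φ b k1 J δ M) := ((hGME a).2.2.2 Φ b k1 J δ M).2
  have hone := hSE.iUnion_eq_one hGm hpos
  set G : Set (Env 2) := GE a Φ b k1 J δ M ∩ {ω : Env 2 | IsCookieEnv ω ∧ IsBalanced ω} with hG
  have hGm' : MeasurableSet G := hGm.inter measurableSet_cb
  have hCB : ∀ᵐ ω ∂P, IsCookieEnv ω ∧ IsBalanced ω := hP.and hB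
  have hgood : ∀ ω ∈ G, ∀ s0 : St, {z | s0.2 z ≠ 0}.Finite → ∃ N : ℕ, c0 ≤ hp (pw ω) N s0 := by
    intro ω hω s0 hs0
    exact hD a (pw ω) _ _ _ φ Φ k1 J (hCOK a ω ha0 ha1 hω.2.1 hω.2.2 hω.1.1) hS hω.1.2 s0 hs0
  -- almost surely some centre is good
  have hcenter : ∀ᵐ w ∂μ, ∃ y, shift y (env w) ∈ G := by
    refine h.ae_env (p := fun ω => ∃ y, shift y ω ∈ G) ?_
    have hm : MeasurableSet (⋃ y, shift y ⁻¹' (GE a Φ b k1 J δ M) : Set (Env 2)) :=
      MeasurableSet.iUnion fun y => measurable_shift y hGm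
    have h1 : P (⋃ y, shift y ⁻¹' (GE a Φ b k1 J δ M) : Set (Env 2))ᶜ = 0 :=
      (prob_compl_eq_zero_iff hm).mpr hone
    filter_upwards [measure_eq_zero_iff_ae_notMem.mp h1, hCB] with ω hω hcb
    rw [Set.mem_compl_iff, not_not, Set.mem_iUnion] at hω
    obtain ⟨y, hy⟩ := hω
    exact ⟨y, hy, shift_cb hcb y⟩
  -- a good centre is hit at arbitrarily large times
  have hio : ∀ y : Site 2, ∀ᵐ w ∂μ, shift y (env w) ∈ G → ∀ m, w ∈ hitSet X 0 y m := by
    intro y
    have hnull : ∀ m, μ ({w | shift y (env w) ∈ G} \ hitSet X 0 y m) = 0 := by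
      intro m
      have hle : ∀ n, hist env X n ≤ ⨆ n, hist env X n := fun n => le_iSup (hist env X) n
      have hGk : ∀ k, MeasurableSet[hist env X k] {w | shift y (env w) ∈ G} := fun k =>
        ((measurable_shift y).comp (measurable_env_hist env X k)) hGm'
      have hTm : MeasurableSet[⨆ n, hist env X n]
          ({w | shift y (env w) ∈ G} \ hitSet X 0 y m) := by
        refine MeasurableSet.diff (hle 0 _ (hGk 0)) ?_
        have : hitSet X 0 y m = ⋃ i, ⋃ _ : m ≤ i, X i ⁻¹' {x | x - y ∈ box 2 0} := by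
          ext w
          simp [hitSet]
        rw [this]
        refine MeasurableSet.iUnion fun i => MeasurableSet.iUnion fun _ => ?_
        exact measurable_walk_iSup env X i (Set.Countable.measurableSet (Set.to_countable _))
      refine h.null_of_condexp_bound hTm (c := 1 - c0) (by linarith)
        ⟨m, fun k hk A hA => ?_⟩
      have h2 : μ.real ((A ∩ {w | shift y (env w) ∈ G}) \ hitSet X 0 y k) ≤
          (1 - c0) * μ.real (A ∩ {w | shift y (env w) ∈ G}) :=
        hHGL Ω _ P μ env X h hP hB y G c0 hc0 hc1 hgood k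
          (A ∩ {w | shift y (env w) ∈ G}) (hA.inter (hGk k)) (fun w hw => hw.2)
      calc μ.real (A ∩ ({w | shift y (env w) ∈ G} \ hitSet X 0 y m)) ≤
          μ.real ((A ∩ {w | shift y (env w) ∈ G}) \ hitSet X 0 y k) := by
            refine measureReal_mono ?_
            rintro w ⟨hw1, hw2, hw3⟩
            refine ⟨⟨hw1, hw2⟩, ?_⟩
            rintro ⟨i, hi1, hi2⟩
            exact hw3 ⟨i, hk.trans hi1, hi2⟩
        _ ≤ (1 - c0) * μ.real (A ∩ {w | shift y (env w) ∈ G}) := h2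
        _ ≤ (1 - c0) * μ.real A := by
            refine mul_le_mul_of_nonneg_left (measureReal_mono Set.inter_subset_left) ?_
            linarith
    have hnull' : ∀ᵐ w ∂μ, ∀ m, w ∉ {w | shift y (env w) ∈ G} \ hitSet X 0 y m := by
      rw [ae_all_iff]
      exact fun m => measure_eq_zero_iff_ae_notMem.mp (hnull m)
    filter_upwards [hnull'] with w hw hwG m
    by_contra hcon
    exact hw m ⟨hwG, hcon⟩
  have hio' : ∀ᵐ w ∂μ, ∀ y : Site 2, shift y (env w) ∈ G → ∀ m, w ∈ hitSet X 0 y m :=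
    ae_all_iff.mpr hio
  -- the stacks are elliptic from some visit on
  have hm0 : Measurable (fun ω : Env 2 => ω 0) := measurable_pi_apply 0
  have hms : MeasurableSet {s : Stack 2 | ∑' i, ENNReal.ofReal |2 * s (0, true) i - a| ≠ ∞} := by
    have hmt : Measurable (fun s : Stack 2 => ∑' i, ENNReal.ofReal |2 * s (0, true) i - a|) := by
      refine Measurable.tsum fun i => ?_
      fun_prop
    exact (hmt (measurableSet_singleton ∞)).compl
  have htv : ∀ᵐ ω ∂P, ∀ z, ∑' i, ENNReal.ofReal |2 * ω z (0, true) i - a| ≠ ∞ := by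
    rw [ae_all_iff]
    intro z
    have h0 : ∀ᵐ ω ∂P, ∑' i, ENNReal.ofReal |2 * ω 0 (0, true) i - a| ≠ ∞ := by
      filter_upwards [(hTJZ P a W hW2 hW).1] with ω hω using hω.1
    have h1 : ∀ᵐ s ∂(P.map (fun ω : Env 2 => ω 0)),
        ∑' i, ENNReal.ofReal |2 * s (0, true) i - a| ≠ ∞ :=
      (ae_map_iff hm0.aemeasurable hms).mpr h0
    rw [← hSE.map_eq z] at h1
    have hmz : Measurable (fun ω : Env 2 => ω z) := measurable_pi_apply z
    exact ae_of_ae_map hmz.aemeasurable h1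
  have hstep : ∀ᵐ w ∂μ, ∀ (z : Site 2) (e : Dir 2),
      (∃ᶠ n in atTop, X n w = z) → ∃ᶠ n in atTop, X n w = z + vec e := by
    rw [ae_all_iff]
    intro z
    rw [ae_all_iff]
    intro e
    refine hIOE Ω _ P μ env X h hP z e ?_
    filter_upwards [hP, hB, htv] with ω h1 h2 h3
    exact elliptic_of_tv ha0 ha1 h1 h2 z (h3 z) e
  filter_upwards [hcenter, hio', hstep] with w hc hi hs
  obtain ⟨y, hy⟩ := hc
  have hhit := hi y hy
  have hfreq : ∃ᶠ n in atTop, X n w = y := by
    rw [frequently_atTop]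
    intro m
    obtain ⟨i, hi1, hi2⟩ := hhit m
    refine ⟨i, hi1, ?_⟩
    have h1 : ∀ l, |(X i w - y) l| ≤ (0 : ℕ) := mem_box.mp hi2
    funext l
    have h2 := h1 l
    have h3 : (X i w - y) l = 0 := by
      have : |(X i w - y) l| ≤ 0 := by simpa using h2
      exact abs_nonpos_iff.mp this
    have h4 : X i w l - y l = 0 := h3
    linarith
  exact fun z => forall_of_step (fun z => ∃ᶠ n in atTop, X n w = z) (fun z hz e => hs z e hz)
    y hfreq z

end Pool.Agent.Helper50.EXC
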