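import Pool.Agent.Helper99.EXC.GoalsK

/-! Packet DIF (helper99, project EXC): difference bounds of the potential kernel. -/

open MeasureTheory

namespace Pool.Agent.Helper50.EXC

open Pool.Agent.Helper99.ERW Pool.Agent.Helper99.EXC

/-- the integrand -/
noncomputable def gg (a : ℝ) (z : Site 2) (θ : ℝ) : ℝ :=
  (1 - rho a θ ^ (z 1).natAbs * Real.cos (z 0 * θ)) / dd a θ

theorem ph_eq (a : ℝ) (z : Site 2) :
    ph a z = 1 / (2 * Real.pi) * ∫ θ in (-Real.pi)..Real.pi, gg a z θ := rfl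

/-- iterated differences -/
def DD : List (Dir 2) → (Site 2 → ℝ) → Site 2 → ℝ
  | [], F, x => F x
  | e :: l, F, x => DD l F (x + vec e) - DD l F x

theorem DD_int (a : ℝ) (hint : ∀ (x : ℤ) (n : ℕ),
    IntervalIntegrable (fun θ => (1 - rho a θ ^ n * Real.cos (x * θ)) / dd a θ)
      volume (-Real.pi) Real.pi) :
    ∀ (l : List (Dir 2)) (x : Site 2),
      IntervalIntegrable (fun θ => DD l (fun z => gg a z θ) x) volume (-Real.pi) Real.pi ∧
      DD l (ph a) x = 1 / (2 * Real.pi) * ∫ θ in (-Real.pi)..Real.pi, DD l (fun z => gg a z θ) x := by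
  intro l
  induction l with
  | nil =>
    intro x
    exact ⟨hint (x 0) (x 1).natAbs, rfl⟩
  | cons e l ih =>
    intro x
    obtain ⟨i1, e1⟩ := ih (x + vec e)
    obtain ⟨i2, e2⟩ := ih x
    refine ⟨i1.sub i2, ?_⟩
    show DD l (ph a) (x + vec e) - DD l (ph a) x = _
    rw [e1, e2, ← mul_sub, ← intervalIntegral.integral_sub i1 i2]
    rfl

/-- the character -/
noncomputable def ch (a : ℝ) (σ : ℤ) (θ : ℝ) (z : Site 2) : ℂ :=
  ((rho a θ : ℝ) : ℂ) ^ (σ * z 1) * Complex.exp (Complex.I * ((z 0 * θ : ℝ) : ℂ))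

theorem ch_add (a : ℝ) (σ : ℤ) (θ : ℝ) (h : rho a θ ≠ 0) (z v : Site 2) :
    ch a σ θ (z + v) = ch a σ θ z * ch a σ θ v := by
  unfold ch
  have h' : ((rho a θ : ℝ) : ℂ) ≠ 0 := by exact_mod_cast h
  rw [Pi.add_apply, Pi.add_apply, mul_add, zpow_add₀ h', Int.cast_add, add_mul, Complex.ofReal_add,
    mul_add, Complex.exp_add]
  ring

theorem ch_re (a : ℝ) (σ : ℤ) (hσ : σ = 1 ∨ σ = -1) (θ : ℝ) (z : Site 2) (hz : 0 ≤ σ * z 1) :
    (ch a σ θ z).re = rho a θ ^ (z 1).natAbs * Real.cos (z 0 * θ) := by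
  have h1 : σ * z 1 = ((z 1).natAbs : ℤ) := by
    rcases hσ with h | h <;> subst h <;> omega
  unfold ch
  rw [h1, zpow_natCast, ← Complex.ofReal_pow, Complex.re_ofReal_mul, mul_comm Complex.I,
    Complex.exp_ofReal_mul_I_re]

theorem ch_norm (a : ℝ) (σ : ℤ) (hσ : σ = 1 ∨ σ = -1) (θ : ℝ) (h : 0 < rho a θ) (z : Site 2)
    (hz : 0 ≤ σ * z 1) :
    ‖ch a σ θ z‖ = rho a θ ^ (z 1).natAbs := by
  have h1 : σ * z 1 = ((z 1).natAbs : ℤ) := by
    rcases hσ with h | h <;> subst h <;> omega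
  unfold ch
  rw [h1, zpow_natCast, norm_mul, mul_comm Complex.I, Complex.norm_exp_ofReal_mul_I, mul_one,
    norm_pow, Complex.norm_real, Real.norm_of_nonneg h.le]

/-- the product of the steps -/
noncomputable def PP (a : ℝ) (σ : ℤ) (θ : ℝ) (l : List (Dir 2)) : ℂ :=
  (l.map fun e => ch a σ θ (vec e) - 1).prod

theorem DD_gg (a : ℝ) (σ : ℤ) (hσ : σ = 1 ∨ σ = -1) (θ : ℝ) (h : 0 < rho a θ) :
    ∀ (l : List (Dir 2)) (x : Site 2), (l.length : ℤ) ≤ σ * x 1 →
      DD l (fun z => gg a z θ) x =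
        ((if l = [] then 1 else 0) - (ch a σ θ x * PP a σ θ l).re) / dd a θ := by
  intro l
  induction l with
  | nil =>
    intro x hx
    have hx' : 0 ≤ σ * x 1 := by simpa using hx
    simp only [DD, PP, List.map_nil, List.prod_nil, mul_one, if_true]
    rw [ch_re a σ hσ θ x hx']
    rfl
  | cons e l ih =>
    intro x hx
    have hlen : ((e :: l).length : ℤ) = l.length + 1 := by simp
    rw [hlen] at hx
    have hv : |vec e 1| ≤ 1 := abs_vec_le e 1
    have hv1 : -1 ≤ σ * vec e 1 := by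
      have := abs_le.1 hv
      rcases hσ with h | h <;> subst h <;> omega
    have h1 := ih (x + vec e) (by rw [Pi.add_apply, mul_add]; omega)
    have h2 := ih x (by omega)
    show DD l (fun z => gg a z θ) (x + vec e) - DD l (fun z => gg a z θ) x = _
    rw [h1, h2, ← sub_div]
    congr 1
    have h3 : ch a σ θ x * PP a σ θ (e :: l) =
        ch a σ θ (x + vec e) * PP a σ θ l - ch a σ θ x * PP a σ θ l := by
      rw [ch_add a σ θ h.ne']
      simp only [PP, List.map_cons, List.prod_cons]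
      ring
    rw [h3, Complex.sub_re]
    simp

theorem PP_norm (a : ℝ) (σ : ℤ) (θ B : ℝ)
    (h : ∀ e : Dir 2, ‖ch a σ θ (vec e) - 1‖ ≤ B) (l : List (Dir 2)) :
    ‖PP a σ θ l‖ ≤ B ^ l.length := by
  have hB : 0 ≤ B := (norm_nonneg _).trans (h (0, true))
  induction l with
  | nil => simp [PP]
  | cons e l ih =>
    have : PP a σ θ (e :: l) = (ch a σ θ (vec e) - 1) * PP a σ θ l := by simp [PP]
    rw [this, norm_mul, List.length_cons, pow_succ']
    exact mul_le_mul (h e) ih (norm_nonneg _) hB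

theorem step_bd (a : ℝ) (σ : ℤ) (hσ : σ = 1 ∨ σ = -1) (θ C R : ℝ) (hR : 1 ≤ R)
    (h : 0 < rho a θ) (h1 : rho a θ ≤ 1) (hC : 1 - rho a θ ≤ C * |θ|) (hr : 1 / rho a θ ≤ R)
    (e : Dir 2) : ‖ch a σ θ (vec e) - 1‖ ≤ (1 + C * R) * |θ| := by
  have hC0 : 0 ≤ C * |θ| := by linarith
  have hCR : C * |θ| ≤ C * |θ| * R := le_mul_of_one_le_right hC0 hR
  have hθ := abs_nonneg θ
  obtain ⟨i, b⟩ := e
  fin_cases i
  · have h0 : vec ((0, b) : Dir 2) 1 = 0 := by unfold vec; simp
    have h2 : vec ((0, b) : Dir 2) 0 = if b then 1 else -1 := by unfold vec; simp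
    have h3 : ch a σ θ (vec ((0, b) : Dir 2)) =
        Complex.exp (Complex.I * (((if b then 1 else -1 : ℤ) * θ : ℝ) : ℂ)) := by
      unfold ch
      rw [h0, h2]
      simp
    change ‖ch a σ θ (vec ((0, b) : Dir 2)) - 1‖ ≤ _
    rw [h3]
    refine (Real.norm_exp_I_mul_ofReal_sub_one_le).trans ?_
    have h4 : ‖((if b then 1 else -1 : ℤ) : ℝ) * θ‖ = |θ| := by
      cases b <;> simp
    rw [h4]
    nlinarith
  · have h0 : vec ((1, b) : Dir 2) 0 = 0 := by unfold vec; simp
    have h2 : vec ((1, b) : Dir 2) 1 = if b then 1 else -1 := by unfold vec; simp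
    have h3 : ch a σ θ (vec ((1, b) : Dir 2)) = ((rho a θ : ℝ) : ℂ) ^ (σ * (if b then 1 else -1)) := by
      unfold ch
      rw [h0, h2]
      simp
    change ‖ch a σ θ (vec ((1, b) : Dir 2)) - 1‖ ≤ _
    rw [h3]
    have h4 : σ * (if b then 1 else -1) = 1 ∨ σ * (if b then 1 else -1) = -1 := by
      rcases hσ with h | h <;> subst h <;> cases b <;> simp
    rcases h4 with h4 | h4
    · rw [h4, zpow_one]
      have : ((rho a θ : ℝ) : ℂ) - 1 = ((rho a θ - 1 : ℝ) : ℂ) := by push_cast; ring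
      rw [this, Complex.norm_real, Real.norm_eq_abs, abs_sub_comm, abs_of_nonneg (by linarith)]
      nlinarith
    · rw [h4, zpow_neg_one]
      have : (((rho a θ : ℝ) : ℂ))⁻¹ - 1 = (((1 - rho a θ) * (1 / rho a θ) : ℝ) : ℂ) := by
        have : ((rho a θ : ℝ) : ℂ) ≠ 0 := by exact_mod_cast h.ne'
        push_cast
        field_simp
      rw [this, Complex.norm_real, Real.norm_of_nonneg (mul_nonneg (by linarith) (by positivity))]
      calc (1 - rho a θ) * (1 / rho a θ) ≤ (C * |θ|) * R :=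
            mul_le_mul hC hr (by positivity) hC0
        _ ≤ (1 + C * R) * |θ| := by nlinarith

theorem exp_int (s : ℝ) (hs : 0 < s) :
    ∫ θ in (-Real.pi)..Real.pi, Real.exp (-(s * |θ|)) ≤ 2 / s := by
  have hpi := Real.pi_pos
  have hc : Continuous fun θ : ℝ => Real.exp (-(s * |θ|)) := by fun_prop
  rw [← intervalIntegral.integral_add_adjacent_intervals (b := 0) (hc.intervalIntegrable _ _)
    (hc.intervalIntegrable _ _)]
  have h1 : ∫ θ in (-Real.pi)..0, Real.exp (-(s * |θ|)) = (1 - Real.exp (-(s * Real.pi))) / s := by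
    have : ∫ θ in (-Real.pi)..0, Real.exp (-(s * |θ|)) =
        ∫ θ in (-Real.pi)..0, Real.exp (s * θ) := by
      refine intervalIntegral.integral_congr fun θ hθ => ?_
      rw [Set.uIcc_of_le (by linarith)] at hθ
      show Real.exp (-(s * |θ|)) = Real.exp (s * θ)
      rw [abs_of_nonpos hθ.2]
      ring_nf
    rw [this, intervalIntegral.integral_eq_sub_of_hasDerivAt (f := fun θ => Real.exp (s * θ) / s)]
    · have : s * -Real.pi = -(s * Real.pi) := by ring
      rw [this]
      simp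
      ring
    · intro θ _
      have h := ((hasDerivAt_id θ).const_mul s).exp.div_const s
      have e1 : Real.exp (s * id θ) * (s * 1) / s = Real.exp (s * θ) := by
        rw [mul_one, mul_div_assoc, div_self hs.ne', mul_one]; rfl
      rw [e1] at h
      exact h
    · exact (by fun_prop : Continuous fun θ : ℝ => Real.exp (s * θ)).intervalIntegrable _ _
  have h2 : ∫ θ in (0)..Real.pi, Real.exp (-(s * |θ|)) = (1 - Real.exp (-(s * Real.pi))) / s := by
    have : ∫ θ in (0)..Real.pi, Real.exp (-(s * |θ|)) =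
        ∫ θ in (0)..Real.pi, Real.exp (-(s * θ)) := by
      refine intervalIntegral.integral_congr fun θ hθ => ?_
      rw [Set.uIcc_of_le (by linarith)] at hθ
      show Real.exp (-(s * |θ|)) = Real.exp (-(s * θ))
      rw [abs_of_nonneg hθ.1]
    rw [this, intervalIntegral.integral_eq_sub_of_hasDerivAt (f := fun θ => -Real.exp (-(s * θ)) / s)]
    · simp
      ring
    · intro θ _
      have h := (((hasDerivAt_id θ).const_mul s).neg.exp.neg).div_const s
      have e1 : -(Real.exp (-(s * id θ)) * -(s * 1)) / s = Real.exp (-(s * θ)) := by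
        rw [mul_one, mul_neg, neg_neg, mul_div_assoc, div_self hs.ne', mul_one]; rfl
      have e2 : HasDerivAt (fun θ => -Real.exp (-(s * θ)) / s)
        (-(Real.exp (-(s * id θ)) * -(s * 1)) / s) θ := h
      rw [e1] at e2
      exact e2
    · exact (by fun_prop : Continuous fun θ : ℝ => Real.exp (-(s * θ))).intervalIntegrable _ _
  rw [h1, h2, ← add_div]
  have := Real.exp_pos (-(s * Real.pi))
  gcongr
  linarith

/-- the main integral bound -/
theorem intbd (a c B : ℝ) (hc : 0 < c) (hB : 0 ≤ B) (hd : ∀ θ : ℝ, |θ| ≤ Real.pi → c * |θ| ≤ dd a θ)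
    (hr0 : ∀ θ, 0 < rho a θ)
    (hr : ∀ θ : ℝ, |θ| ≤ Real.pi → ∀ n : ℕ, rho a θ ^ n ≤ Real.exp (-(c * n * |θ|))) (k n : ℕ)
    (hn : 1 ≤ n) (N : ℝ → ℝ)
    (hN : ∀ θ : ℝ, |θ| ≤ Real.pi → |N θ| ≤ rho a θ ^ n * (B * |θ|) ^ (k + 1)) :
    |∫ θ in (-Real.pi)..Real.pi, N θ / dd a θ| ≤
      (B ^ (k + 1) / c * (k.factorial * (2 / c) ^ k) * (4 / c)) / (n : ℝ) ^ (k + 1) := by
  have hpi := Real.pi_pos
  have hn0 : (0 : ℝ) < n := by exact_mod_cast hn
  set s : ℝ := c * n / 2 with hs
  have hs0 : 0 < s := by positivity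
  set A : ℝ := B ^ (k + 1) / c * (k.factorial * (1 / s) ^ k) with hA
  have hA0 : 0 ≤ A := by positivity
  have hpt : ∀ θ : ℝ, |θ| ≤ Real.pi → ‖N θ / dd a θ‖ ≤ A * Real.exp (-(s * |θ|)) := by
    intro θ hθ
    by_cases h0 : θ = 0
    · have h1 : N θ = 0 := by
        have := hN θ hθ
        rw [h0, abs_zero, mul_zero, zero_pow (Nat.succ_ne_zero k), mul_zero] at this
        rw [h0]
        exact abs_nonpos_iff.1 this
      rw [h1, zero_div, norm_zero]
      positivity
    · have hθ0 : 0 < |θ| := abs_pos.2 h0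
      have hd0 : 0 < dd a θ := lt_of_lt_of_le (by positivity) (hd θ hθ)
      rw [norm_div, Real.norm_eq_abs, Real.norm_of_nonneg hd0.le, div_le_iff₀ hd0]
      have h1 : |N θ| ≤ Real.exp (-(c * n * |θ|)) * (B * |θ|) ^ (k + 1) :=
        (hN θ hθ).trans (mul_le_mul_of_nonneg_right (hr θ hθ n) (by positivity))
      have h2 : (s * |θ|) ^ k ≤ k.factorial * Real.exp (s * |θ|) := by
        have := Real.pow_div_factorial_le_exp (s * |θ|) (by positivity) k
        rw [div_le_iff₀ (by positivity)] at this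
        linarith
      have h3 : |θ| ^ k ≤ k.factorial * (1 / s) ^ k * Real.exp (s * |θ|) := by
        have e1 : |θ| ^ k = (1 / s) ^ k * (s * |θ|) ^ k := by
          rw [← mul_pow, ← mul_assoc, one_div, inv_mul_cancel₀ hs0.ne', one_mul]
        rw [e1]
        calc (1 / s) ^ k * (s * |θ|) ^ k ≤ (1 / s) ^ k * (k.factorial * Real.exp (s * |θ|)) := by
              gcongr
          _ = _ := by ring
      have h4 : Real.exp (-(c * n * |θ|)) = Real.exp (-(s * |θ|)) * Real.exp (-(s * |θ|)) := by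
        rw [← Real.exp_add]
        congr 1
        rw [hs]; ring
      have h5 : Real.exp (-(s * |θ|)) * Real.exp (s * |θ|) = 1 := by
        rw [← Real.exp_add]; simp
      calc |N θ| ≤ Real.exp (-(c * n * |θ|)) * (B * |θ|) ^ (k + 1) := h1
        _ = Real.exp (-(s * |θ|)) * Real.exp (-(s * |θ|)) * (B ^ (k + 1) * |θ| * |θ| ^ k) := by
            rw [h4]; ring
        _ ≤ Real.exp (-(s * |θ|)) * Real.exp (-(s * |θ|)) *
            (B ^ (k + 1) * |θ| * (k.factorial * (1 / s) ^ k * Real.exp (s * |θ|))) := by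
            gcongr
        _ = (Real.exp (-(s * |θ|)) * Real.exp (s * |θ|)) * (Real.exp (-(s * |θ|)) *
            (B ^ (k + 1) * (k.factorial * (1 / s) ^ k)) * |θ|) := by ring
        _ = Real.exp (-(s * |θ|)) * (B ^ (k + 1) * (k.factorial * (1 / s) ^ k)) / c * (c * |θ|) := by
            rw [h5, one_mul]
            field_simp
        _ ≤ Real.exp (-(s * |θ|)) * (B ^ (k + 1) * (k.factorial * (1 / s) ^ k)) / c * dd a θ := by
            have := hd θ hθ
            gcongr
        _ = A * Real.exp (-(s * |θ|)) * dd a θ := by rw [hA]; ring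
  have hcont : Continuous fun θ : ℝ => A * Real.exp (-(s * |θ|)) := by fun_prop
  have h6 : ‖∫ θ in (-Real.pi)..Real.pi, N θ / dd a θ‖ ≤
      ∫ θ in (-Real.pi)..Real.pi, A * Real.exp (-(s * |θ|)) := by
    refine intervalIntegral.norm_integral_le_of_norm_le (by linarith) ?_
      (hcont.intervalIntegrable _ _)
    refine Filter.Eventually.of_forall fun θ hθ => hpt θ ?_
    rw [abs_le]
    exact ⟨hθ.1.le, hθ.2⟩
  rw [Real.norm_eq_abs] at h6
  refine h6.trans ?_
  rw [intervalIntegral.integral_const_mul]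
  calc A * ∫ θ in (-Real.pi)..Real.pi, Real.exp (-(s * |θ|)) ≤ A * (2 / s) := by
        gcongr
        exact exp_int s hs0
    _ = _ := by
        rw [hA, hs]
        have e1 : (1 / (c * n / 2)) ^ k = (2 / c) ^ k / (n : ℝ) ^ k := by
          rw [← div_pow]
          congr 1
          field_simp
        rw [e1, pow_succ (n : ℝ)]
        field_simp
        ring

theorem DD_small (F : Site 2 → ℝ) (M : ℝ) (hM : ∀ x ∈ box 2 10, |F x| ≤ M) :
    ∀ (l : List (Dir 2)) (x : Site 2), (∀ i, |x i| + l.length ≤ 10) →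
      |DD l F x| ≤ 2 ^ l.length * M := by
  intro l
  induction l with
  | nil =>
    intro x hx
    simp only [DD, List.length_nil, pow_zero, one_mul]
    refine hM x (mem_box.2 fun i => ?_)
    have := hx i
    simpa using this
  | cons e l ih =>
    intro x hx
    have hlen : ((e :: l).length : ℤ) = l.length + 1 := by simp
    have h1 := ih (x + vec e) fun i => by
      have h2 := hx i
      rw [hlen] at h2
      have h3 := abs_vec_le e i
      have h4 : |(x + vec e) i| ≤ |x i| + |vec e i| := by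
        rw [Pi.add_apply]; exact abs_add_le _ _
      omega
    have h2 := ih x fun i => by
      have h2 := hx i
      rw [hlen] at h2
      omega
    show |DD l F (x + vec e) - DD l F x| ≤ _
    rw [List.length_cons, pow_succ]
    have := abs_sub (DD l F (x + vec e)) (DD l F x)
    linarith

theorem main (hRHO : RHO_stmt) (hINT : INT_stmt) (a : ℝ) (ha : 0 < a) (ha1 : a < 1) (k : ℕ)
    (hk : k ≤ 2) : ∃ C : ℝ, 0 ≤ C ∧ ∀ (l : List (Dir 2)) (x : Site 2), l.length = k + 1 →
      |x 0| ≤ |x 1| → |DD l (ph a) x| ≤ C / (1 + nm x) ^ (k + 1) := by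
  obtain ⟨-, -, -, -, hd0, hr0, hr1, hq, -, c, C, hc, hC, hall⟩ := hRHO a ha ha1
  obtain ⟨hint, -, -, -⟩ := hINT a ha ha1
  have hpi := Real.pi_pos
  set R : ℝ := 2 * (2 * a + (1 - a)) / (1 - a) with hR
  have hb : 0 < 1 - a := by linarith
  have hR1 : 1 ≤ R := by
    rw [hR, le_div_iff₀ hb]; linarith
  have hrR : ∀ θ, 1 / rho a θ ≤ R := by
    intro θ
    rw [div_le_iff₀ (hr0 θ), hR]
    have h1 := hq θ
    have h2 : lam a θ ≤ 2 * a := by
      unfold lam
      have := Real.neg_one_le_cos θ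
      nlinarith
    have h3 : (1 - a) / 2 ≤ (2 * a + (1 - a)) * rho a θ := by
      have h4 : (lam a θ + (1 - a)) * rho a θ ≤ (2 * a + (1 - a)) * rho a θ := by
        have := (hr0 θ).le
        gcongr
      have h5 : (1 - a) / 2 ≤ (1 - a) / 2 * (rho a θ ^ 2 + 1) := by
        have := sq_nonneg (rho a θ)
        nlinarith
      linarith
    rw [div_mul_eq_mul_div, le_div_iff₀ hb]
    nlinarith
  set B : ℝ := 1 + C * R with hB
  have hB0 : 0 ≤ B := by positivity
  set A : ℝ := B ^ (k + 1) / c * (k.factorial * (2 / c) ^ k) * (4 / c) with hA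
  have hA0 : 0 ≤ A := by positivity
  obtain ⟨M, hM0, hM⟩ := exists_bound_box (ph a) 10
  refine ⟨8 ^ (k + 1) * M + A * 2 ^ (k + 1), by positivity, fun l x hl hx => ?_⟩
  have hnm : nm x = ((x 1).natAbs : ℝ) := by
    unfold nm
    rw [max_eq_right]
    · rw [Nat.cast_natAbs, Int.cast_abs]
    · exact_mod_cast hx
  have hnm0 : 0 ≤ nm x := by rw [hnm]; positivity
  rw [le_div_iff₀ (by positivity)]
  by_cases hsm : (x 1).natAbs ≤ 3
  · have hl' : (l.length : ℤ) ≤ 3 := by rw [hl]; push_cast; omega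
    have hx1 : |x 1| ≤ 3 := by rw [Int.abs_eq_natAbs]; exact_mod_cast hsm
    have h1 := DD_small (ph a) M hM l x fun i => by
      have hxi : |x i| ≤ 3 := by
        fin_cases i
        · exact hx.trans hx1
        · exact hx1
      linarith
    rw [hl] at h1
    have h2 : (1 + nm x) ^ (k + 1) ≤ 4 ^ (k + 1) := by
      gcongr
      rw [hnm]
      have : ((x 1).natAbs : ℝ) ≤ 3 := by exact_mod_cast hsm
      linarith
    calc |DD l (ph a) x| * (1 + nm x) ^ (k + 1) ≤ (2 ^ (k + 1) * M) * 4 ^ (k + 1) :=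
          mul_le_mul h1 h2 (by positivity) (by positivity)
      _ = 8 ^ (k + 1) * M := by
          rw [show (8 : ℝ) = 2 * 4 by norm_num, mul_pow]; ring
      _ ≤ _ := by
          have : 0 ≤ A * 2 ^ (k + 1) := by positivity
          linarith
  · push Not at hsm
    obtain ⟨σ, hσ, hσx⟩ : ∃ σ : ℤ, (σ = 1 ∨ σ = -1) ∧ σ * x 1 = (x 1).natAbs := by
      rcases le_total 0 (x 1) with h | h
      · exact ⟨1, Or.inl rfl, by omega⟩
      · exact ⟨-1, Or.inr rfl, by omega⟩
    set n := (x 1).natAbs with hn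
    have hlx : (l.length : ℤ) ≤ σ * x 1 := by rw [hσx, hl]; push_cast; omega
    have hx0 : 0 ≤ σ * x 1 := by rw [hσx]; positivity
    have hne : l ≠ [] := by
      intro h
      rw [h] at hl
      simp at hl
    rw [(DD_int a hint l x).2]
    have h1 : ∀ θ, DD l (fun z => gg a z θ) x = (-(ch a σ θ x * PP a σ θ l).re) / dd a θ := by
      intro θ
      rw [DD_gg a σ hσ θ (hr0 θ) l x hlx, if_neg hne, zero_sub]
    simp only [h1]
    have h2 := intbd a c B hc hB0 (fun θ hθ => (hall θ hθ).1) hr0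
      (fun θ hθ => (hall θ hθ).2.2.2.1) k n (by omega)
      (fun θ => -(ch a σ θ x * PP a σ θ l).re) (fun θ hθ => by
        rw [abs_neg]
        refine (Complex.abs_re_le_norm _).trans ?_
        rw [norm_mul, ch_norm a σ hσ θ (hr0 θ) x hx0]
        have h3 := PP_norm a σ θ (B * |θ|) (fun e => step_bd a σ hσ θ C R hR1 (hr0 θ) (hr1 θ)
          (hall θ hθ).2.2.1 (hrR θ) e) l
        rw [hl] at h3
        have := pow_nonneg (hr0 θ).le (x 1).natAbs
        gcongr)
    have hn0 : (0 : ℝ) < n := by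
      have : 0 < n := by omega
      exact_mod_cast this
    have h4 : (1 + nm x) ^ (k + 1) ≤ 2 ^ (k + 1) * (n : ℝ) ^ (k + 1) := by
      rw [← mul_pow]
      gcongr
      rw [hnm]
      have : (1 : ℝ) ≤ n := by
        have : 1 ≤ n := by omega
        exact_mod_cast this
      linarith
    rw [abs_mul, abs_of_pos (by positivity : (0 : ℝ) < 1 / (2 * Real.pi))]
    have h5 : 1 / (2 * Real.pi) ≤ 1 := by
      rw [div_le_one (by positivity)]
      have := Real.pi_gt_three
      linarith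
    calc 1 / (2 * Real.pi) * |∫ θ in (-Real.pi)..Real.pi, (-(ch a σ θ x * PP a σ θ l).re) / dd a θ| *
          (1 + nm x) ^ (k + 1) ≤ 1 * (A / (n : ℝ) ^ (k + 1)) * (2 ^ (k + 1) * (n : ℝ) ^ (k + 1)) := by
          gcongr
      _ = A * 2 ^ (k + 1) := by field_simp
      _ ≤ _ := by
          have : 0 ≤ 8 ^ (k + 1) * M := by positivity
          linarith

theorem DIF (hRHO : RHO_stmt) (hINT : INT_stmt) : DIF_stmt := by
  intro a ha ha1
  obtain ⟨C0, h0, H0⟩ := main hRHO hINT a ha ha1 0 (by norm_num)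
  obtain ⟨C1, h1, H1⟩ := main hRHO hINT a ha ha1 1 (by norm_num)
  obtain ⟨C2, h2, H2⟩ := main hRHO hINT a ha ha1 2 (by norm_num)
  refine ⟨C0 + C1 + C2, fun x hx => ?_⟩
  have hnm0 : 0 ≤ nm x := by
    unfold nm
    exact le_max_of_le_left (abs_nonneg _)
  refine ⟨fun e => ?_, fun e f => ?_, fun e f g => ?_⟩
  · have h := H0 [e] x rfl hx
    simp only [DD, zero_add, pow_one] at h
    refine h.trans ?_
    gcongr
    linarith
  · have h := H1 [e, f] x rfl hx
    simp only [DD] at h
    have e1 : ph a (x + vec e + vec f) - ph a (x + vec e) - ph a (x + vec f) + ph a x =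
        ph a (x + vec e + vec f) - ph a (x + vec e) - (ph a (x + vec f) - ph a x) := by ring
    rw [e1]
    refine h.trans ?_
    gcongr
    linarith
  · have h := H2 [e, f, g] x rfl hx
    simp only [DD] at h
    have e1 : ph a (x + vec e + vec f + vec g) - ph a (x + vec e + vec f) -
        ph a (x + vec e + vec g) - ph a (x + vec f + vec g) + ph a (x + vec e) + ph a (x + vec f) +
        ph a (x + vec g) - ph a x =
        ph a (x + vec e + vec f + vec g) - ph a (x + vec e + vec f) -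
          (ph a (x + vec e + vec g) - ph a (x + vec e)) -
        (ph a (x + vec f + vec g) - ph a (x + vec f) - (ph a (x + vec g) - ph a x)) := by ring
    rw [e1]
    refine h.trans ?_
    gcongr
    linarith

end Pool.Agent.Helper50.EXC
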